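import Pool.Agent.Helper45_PST.CLC

set_option autoImplicit false

open scoped BigOperators TensorProduct PowerSeries

noncomputable section

namespace Pool.Agent.PST.U.H92

open Pool.Agent.PFC (tw IsTv)
open Pool.Agent.PFD.D2b (FrR)
open Pool.Agent.PSS
open Pool.Agent.PSS.S0
open Pool.Agent.PSS.S3
open Pool.Agent.PSS.H64 (bcf bcf_ap bw_t cw_t fx_t sm_t bcw_ap)
open Pool.Agent.PSS.H28 (fx_mul fx_mono)
open Pool.Agent.PST.U.H45 (fco fbk frS star eq_of_coef diag)

/-- a central element is fixed by conjugation -/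
theorem cen_fx {R W A : Type} [CommRing R] [CommGroup W] [Ring A] [Algebra R A] (γ : W →* A)
    {a : A} (ha : ∀ m, a * m = m * a) : a ∈ FxR (cw R γ) ⊤ := by
  intro w _
  change γ w * (a * γ w⁻¹) = a
  rw [ha, ← mul_assoc, ← map_mul, mul_inv_cancel, map_one, one_mul]

theorem bot (hLIX : LixStmt) (hCLC : ClcStmt) : BotStmt := by
  intro ℓ hp R S W E As _ _ _ _ _ _ _ _ _ _ ψ γ w₀ hinj hℓ hW hper hw0 hclo hnlw e hcen hid he
  have hefx : e ∈ FxR (cw S (bcw (R := R) (S := S) γ)) ⊤ := cen_fx _ hcen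
  -- the element is in the Brauer kernel of `⟨w₀⟩`
  have hstep : ∀ Q : Subgroup W, w₀ ∈ Q → e ∈ BKR (cw S (bcw (R := R) (S := S) γ)) Q := by
    intro Q
    induction Q using WellFoundedGT.induction with
    | ind Q ih =>
      intro hwQ
      by_cases hQ : Clo ψ Q
      · have hQt : Q = ⊤ := by
          rw [Subgroup.eq_top_iff']
          intro w
          refine hQ w fun ee hee => ?_
          rw [hw0 ee (hee w₀ hwQ)]
          rfl
        rw [hQt]
        exact he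
      · have hV := hCLC ℓ R S W E As ψ γ hinj hℓ hW hper Q (hclo Q hQ)
        refine hV e hefx (fun Q' hQ' => ih Q' hQ' (hQ'.le hwQ)) fun m _ => ?_
        rw [hcen m, sub_self]
        exact Submodule.zero_mem _
  have hP0 := hstep (Subgroup.zpowers w₀) (Subgroup.mem_zpowers w₀)
  obtain ⟨Ω, _, _, b, c, hfr⟩ := diag ψ γ hper
  have hfrS := frS (S := S) γ b c hfr
  have hℓS : (ℓ : S) = 0 := by rw [← map_natCast (algebraMap R S), hℓ, map_zero]
  obtain ⟨n, g, a, hg, rfl⟩ := hLIX R S As hinj e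
  -- the coefficients are central
  have h1 : ∀ i m, a i * m = m * a i := by
    intro i m
    refine eq_of_coef γ b c hfr fun ω => ?_
    refine star hg (fun i => a i * m - m * a i) (c ω) ?_ i
    have h4 := hcen ((1 : S) ⊗ₜ[R] m)
    rw [Finset.sum_mul, Finset.mul_sum, ← sub_eq_zero, ← Finset.sum_sub_distrib] at h4
    have h5 : ∑ i, g i ⊗ₜ[R] (a i * m - m * a i) =
        ∑ i, (g i ⊗ₜ[R] a i * (1 : S) ⊗ₜ[R] m - (1 : S) ⊗ₜ[R] m * g i ⊗ₜ[R] a i) := by
      refine Finset.sum_congr rfl fun i _ => ?_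
      rw [Algebra.TensorProduct.tmul_mul_tmul, Algebra.TensorProduct.tmul_mul_tmul, one_mul,
        mul_one, TensorProduct.tmul_sub]
    rw [h5, h4, map_zero]
  have h2 : ∀ i, a i ∈ FxR (cw R γ) ⊤ := fun i => cen_fx γ (h1 i)
  have h3 : ∀ i, a i ∈ BKR (cw R γ) (Subgroup.zpowers w₀) := by
    intro i
    refine fbk R W As Ω (cw R γ) b c hfr _ _ (fx_mono γ le_top (h2 i)) fun ω hω => ?_
    exact star hg a (c ω) (fco ℓ S W _ Ω _ _ _ hℓS hW hfrS _ _ hP0 ω hω) i
  have h4 : ∀ i, IsNilpotent (a i) := fun i => hnlw (a i) (h1 i) (h3 i)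
  have h5 : IsNilpotent (∑ i, g i ⊗ₜ[R] a i) := by
    refine Commute.isNilpotent_sum (fun i _ => ?_) (fun i j _ _ => ?_)
    · obtain ⟨k, hk⟩ := h4 i
      refine ⟨k, ?_⟩
      rw [Algebra.TensorProduct.tmul_pow, hk, TensorProduct.tmul_zero]
    · change g i ⊗ₜ[R] a i * g j ⊗ₜ[R] a j = g j ⊗ₜ[R] a j * g i ⊗ₜ[R] a i
      rw [Algebra.TensorProduct.tmul_mul_tmul, Algebra.TensorProduct.tmul_mul_tmul, h1 i (a j),
        mul_comm]
  obtain ⟨k, hk⟩ := h5
  have h6 : IsIdempotentElem (∑ i, g i ⊗ₜ[R] a i) := hid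
  have h7 := h6.pow_succ_eq k
  rw [pow_succ, hk, zero_mul] at h7
  exact h7.symm

end Pool.Agent.PST.U.H92
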