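import Pool.Agent.PST.StmtsUC

set_option autoImplicit false

open scoped BigOperators TensorProduct PowerSeries

noncomputable section

namespace Pool.Agent.PST.UC.H92

open Pool.Agent.PST.UC

section

variable {R N B : Type} [CommRing R] [CommGroup N] [Ring B] [Algebra R B] {ν : N →* B}

theorem aug_mul_right {y : B} (hy : y ∈ Aug R ν ⊤) (x : B) : y * x ∈ Aug R ν ⊤ := by
  refine Submodule.span_induction (p := fun y _ => y * x ∈ Aug R ν ⊤) ?_ ?_ ?_ ?_ hy
  · rintro _ ⟨n, b, -, rfl⟩
    refine Submodule.subset_span ⟨n, b * x, Submodule.mem_top, ?_⟩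
    rw [mul_assoc]
  · rw [zero_mul]
    exact Submodule.zero_mem _
  · intro a b _ _ ha hb
    rw [add_mul]
    exact Submodule.add_mem _ ha hb
  · intro r a _ ha
    rw [smul_mul_assoc]
    exact Submodule.smul_mem _ r ha

theorem aug_mul_left (hc : ∀ n b, ν n * b = b * ν n) {y : B} (hy : y ∈ Aug R ν ⊤) (x : B) :
    x * y ∈ Aug R ν ⊤ := by
  refine Submodule.span_induction (p := fun y _ => x * y ∈ Aug R ν ⊤) ?_ ?_ ?_ ?_ hy
  · rintro _ ⟨n, b, -, rfl⟩
    refine Submodule.subset_span ⟨n, x * b, Submodule.mem_top, ?_⟩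
    rw [← mul_assoc, mul_sub, ← hc n x, mul_one, sub_mul, sub_mul, one_mul, mul_assoc]
  · rw [mul_zero]
    exact Submodule.zero_mem _
  · intro a b _ _ ha hb
    rw [mul_add]
    exact Submodule.add_mem _ ha hb
  · intro r a _ ha
    rw [mul_smul_comm]
    exact Submodule.smul_mem _ r ha

theorem corner (hc : ∀ n b, ν n * b = b * ν n)
    (hJ : ∀ J : Submodule R B, J ≤ Aug R ν J → J = ⊥) {e1 e2 : B} (h1 : e1 * e1 = e1)
    (h2 : e2 * e2 = e2) (h : ∀ x, e1 * x * e2 ∈ Aug R ν ⊤) (x : B) : e1 * x * e2 = 0 := by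
  let L : B →ₗ[R] B := (LinearMap.mulRight R e2).comp (LinearMap.mulLeft R e1)
  have hL : ∀ z, L z = e1 * z * e2 := fun z => rfl
  have hmain : LinearMap.range L ≤ Aug R ν (LinearMap.range L) := by
    rintro _ ⟨z, rfl⟩
    have h3 : L (L z) = L z := by
      simp only [hL]
      calc e1 * (e1 * z * e2) * e2 = (e1 * e1) * z * (e2 * e2) := by simp only [mul_assoc]
        _ = e1 * z * e2 := by rw [h1, h2]
    have h4 : ∀ y ∈ Aug R ν ⊤, L y ∈ Aug R ν (LinearMap.range L) := by
      intro y hy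
      refine Submodule.span_induction (p := fun y _ => L y ∈ Aug R ν (LinearMap.range L))
        ?_ ?_ ?_ ?_ hy
      · rintro _ ⟨n, b, -, rfl⟩
        refine Submodule.subset_span ⟨n, L b, ⟨b, rfl⟩, ?_⟩
        simp only [hL]
        calc e1 * ((ν n - 1) * b) * e2 = (e1 * ν n) * b * e2 - e1 * b * e2 := by noncomm_ring
          _ = (ν n * e1) * b * e2 - e1 * b * e2 := by rw [hc]
          _ = (ν n - 1) * (e1 * b * e2) := by noncomm_ring
      · rw [map_zero]
        exact Submodule.zero_mem _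
      · intro a b _ _ ha hb
        rw [map_add]
        exact Submodule.add_mem _ ha hb
      · intro r a _ ha
        rw [map_smul]
        exact Submodule.smul_mem _ r ha
    rw [← h3]
    exact h4 _ (h z)
  have h5 := hJ _ hmain
  have h6 : L x ∈ LinearMap.range L := ⟨x, rfl⟩
  rw [h5, Submodule.mem_bot] at h6
  exact h6

end

theorem cil (hNIA : NiaStmt) : CilStmt := by
  intro ℓ hp R N B _ _ _ _ _ ν b hℓ hN hc hbb hbc
  obtain ⟨-, hJ, hnil⟩ := hNIA ℓ R N B ν hℓ hN hc
  obtain ⟨k₀, hk₀⟩ := hnil _ hbb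
  obtain ⟨k, hk⟩ : ∃ k, k = k₀ + 1 := ⟨_, rfl⟩
  have hk0 : k ≠ 0 := by omega
  have hnk : (b * b - b) ^ k = 0 := by rw [hk, pow_succ, hk₀, zero_mul]
  obtain ⟨P, hP⟩ : ∃ P : Polynomial R, P = 1 - (1 - Polynomial.X ^ k) ^ k := ⟨_, rfl⟩
  obtain ⟨q1, hq1⟩ : Polynomial.X ^ k ∣ P := by
    have h1 : (Polynomial.X ^ k : Polynomial R) = 1 - (1 - Polynomial.X ^ k) := by ring
    rw [hP]
    calc (Polynomial.X ^ k : Polynomial R) = 1 - (1 - Polynomial.X ^ k) := h1
      _ ∣ 1 ^ k - (1 - Polynomial.X ^ k) ^ k := sub_dvd_pow_sub_pow _ _ k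
      _ = 1 - (1 - Polynomial.X ^ k) ^ k := by rw [one_pow]
  obtain ⟨q2, hq2⟩ : (1 - Polynomial.X : Polynomial R) ^ k ∣ 1 - P := by
    have h2 : 1 - P = (1 - Polynomial.X ^ k) ^ k := by rw [hP]; ring
    rw [h2]
    refine pow_dvd_pow_of_dvd ?_ k
    calc (1 - Polynomial.X : Polynomial R) ∣ 1 ^ k - Polynomial.X ^ k := sub_dvd_pow_sub_pow _ _ k
      _ = 1 - Polynomial.X ^ k := by rw [one_pow]
  obtain ⟨g, hg⟩ : (Polynomial.X : Polynomial R) ∣ P :=
    dvd_trans (dvd_pow_self _ hk0) ⟨q1, hq1⟩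
  obtain ⟨h, hh⟩ : (Polynomial.X - Polynomial.C 1 : Polynomial R) ∣ g - 1 := by
    rw [Polynomial.dvd_iff_isRoot, Polynomial.IsRoot.def]
    have h3 := congrArg (Polynomial.eval 1) hg
    rw [Polynomial.eval_mul, Polynomial.eval_X, one_mul, hP] at h3
    rw [Polynomial.eval_sub, ← h3]
    simp [hk0]
  have hPX : P - Polynomial.X = (Polynomial.X * Polynomial.X - Polynomial.X) * h := by
    rw [hg]
    have : g = 1 + (Polynomial.X - Polynomial.C 1) * h := by rw [← hh]; ring
    rw [this, map_one]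
    ring
  set f : B := Polynomial.aeval b P with hf
  have hf1 : f = b * Polynomial.aeval b g := by
    rw [hf, hg, map_mul, Polynomial.aeval_X]
  have hff : f * (1 - f) = 0 := by
    have h4 : P * (1 - P) = (Polynomial.X * (1 - Polynomial.X)) ^ k * (q1 * q2) := by
      conv_lhs => rw [hq2]
      rw [mul_pow]
      conv_lhs => rw [hq1]
      ring
    have h5 := congrArg (Polynomial.aeval b) h4
    simp only [map_mul, map_sub, map_one, map_pow, Polynomial.aeval_X] at h5
    rw [← hf] at h5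
    have h6 : b * (1 - b) = -(b * b - b) := by noncomm_ring
    rw [h6, neg_pow, hnk, mul_zero, zero_mul] at h5
    exact h5
  have hidem : f * f = f := by
    rw [mul_sub, mul_one, sub_eq_zero] at hff
    exact hff.symm
  have hidem' : (1 - f) * (1 - f) = 1 - f := by
    calc (1 - f) * (1 - f) = 1 - f - f + f * f := by noncomm_ring
      _ = 1 - f := by rw [hidem]; abel
  have hfb : f - b ∈ Aug R ν ⊤ := by
    have h5 := congrArg (Polynomial.aeval b) hPX
    simp only [map_sub, map_mul, Polynomial.aeval_X] at h5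
    rw [hf, h5]
    exact aug_mul_right hbb _
  have hcomm : ∀ x, f * x - x * f ∈ Aug R ν ⊤ := by
    intro x
    have h7 : f * x - x * f = (f - b) * x - x * (f - b) + (b * x - x * b) := by noncomm_ring
    rw [h7]
    exact Submodule.add_mem _ (Submodule.sub_mem _ (aug_mul_right hfb x)
      (aug_mul_left hc hfb x)) (hbc x)
  have h8 : ∀ x, f * x * (1 - f) = 0 := by
    refine corner hc hJ hidem hidem' fun x => ?_
    have h9 : f * x * (1 - f) = (f * x - x * f) * (1 - f) + x * (f * (1 - f)) := by noncomm_ring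
    rw [h9, hff, mul_zero, add_zero]
    exact aug_mul_right (hcomm x) _
  have h10 : ∀ x, (1 - f) * x * f = 0 := by
    refine corner hc hJ hidem' hidem fun x => ?_
    have h9 : (1 - f) * x * f = -((f * x - x * f) * f) + x * (f - f * f) := by noncomm_ring
    rw [h9, hidem, sub_self, mul_zero, add_zero]
    exact Submodule.neg_mem _ (aug_mul_right (hcomm x) _)
  refine ⟨f, g, hf1, hidem, fun x => ?_, hfb⟩
  have h11 := h8 x
  have h12 := h10 x
  have h13 : f * x = f * x * f := by
    have : f * x * (1 - f) = f * x - f * x * f := by noncomm_ring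
    rw [this] at h11
    exact sub_eq_zero.1 h11
  have h14 : x * f = f * x * f := by
    have : (1 - f) * x * f = x * f - f * x * f := by noncomm_ring
    rw [this] at h12
    exact sub_eq_zero.1 h12
  rw [h13, h14]

end Pool.Agent.PST.UC.H92
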