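import Pool.Agent.PST.StmtsDR

set_option autoImplicit false

noncomputable section

namespace Pool.Agent.PST.H92

open Pool.Agent.PST

theorem sep_aux (K A : Type) [Field K] [AddCommGroup A] [Module K A] (a : A) (ha : a ≠ 0) :
    ∃ f : A →+ K, f a ≠ 0 := by
  by_contra hcon
  push Not at hcon
  apply ha
  rw [← Module.forall_dual_apply_eq_zero_iff K a]
  intro φ
  exact hcon φ.toAddMonoidHom

theorem sep (ℓ : ℕ) [Fact ℓ.Prime] (A : Type) [AddCommGroup A] (hk : ∀ x : A, ℓ • x = 0) (a : A)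
    (ha : a ≠ 0) : ∃ f : A →+ ZMod ℓ, f a ≠ 0 := by
  let _ : Module (ZMod ℓ) A := AddCommGroup.zmodModule hk
  exact sep_aux (ZMod ℓ) A a ha

theorem spt : SptStmt := by
  intro ℓ _ F V _ _ _ _ W hW v hv
  have hk : ∀ x : Additive (V ⧸ W), ℓ • x = 0 := by
    intro x
    obtain ⟨u, hu⟩ := QuotientGroup.mk_surjective (Additive.toMul x)
    apply Additive.toMul.injective
    rw [toMul_nsmul, ← hu, toMul_zero, ← QuotientGroup.mk_pow, QuotientGroup.eq_one_iff]
    exact hW u
  have hne : (Additive.ofMul (QuotientGroup.mk v : V ⧸ W)) ≠ 0 := by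
    intro h
    apply hv
    have h2 := congrArg Additive.toMul h
    rw [toMul_ofMul, toMul_zero, QuotientGroup.eq_one_iff] at h2
    exact h2
  obtain ⟨f, hf⟩ := sep ℓ (Additive (V ⧸ W)) hk _ hne
  refine ⟨fun u => ZMod.castHom (dvd_refl ℓ) F (f (Additive.ofMul (QuotientGroup.mk u : V ⧸ W))),
    ?_, ?_, ?_⟩
  · intro a b
    simp only [QuotientGroup.mk_mul, ofMul_mul, map_add]
  · intro w hw
    have : (QuotientGroup.mk w : V ⧸ W) = 1 := (QuotientGroup.eq_one_iff w).2 hw
    simp only [this, ofMul_one, map_zero]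
  · intro h
    apply hf
    exact (ZMod.castHom (dvd_refl ℓ) F).injective (h.trans (map_zero _).symm)

end Pool.Agent.PST.H92
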