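import Pool.Agent.PST.StmtsGV

/-!
# Row SVQ of squad PST, block GV: the quotient by `W` (helper92)

The rows SRQ, RSQ are hypotheses.
-/

set_option autoImplicit false

namespace Pool.Agent.PST.GU.H92

open Pool.Agent.PST.GU Pool.Agent.PSS

private theorem sr_le {ℓ : ℕ} {V : Type} [Group V] {E : Subgroup (MulAut V)} {U Q P : Subgroup V}
    (h : Sr ℓ E U Q P) : Q ≤ P := by
  induction h with
  | refl => exact le_refl _
  | tail _ h2 ih => exact ih.trans h2.le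

private theorem top_iso {L : Kt} {ℓ : ℕ} (hL : AdT ℓ L) {V : Type} [Group V]
    (E : Subgroup (MulAut V)) (T : Subgroup V) (hT : T = ⊤) (h : L ℓ T (rse E T)) : L ℓ V E := by
  subst hT
  refine hL.iso (⊤ : Subgroup V) V (rse E ⊤) E Subgroup.topEquiv ⟨?_, ?_⟩ h
  · exact Subgroup.topEquiv.surjective
  · intro a' ha'
    refine ⟨(Subgroup.topEquiv.trans a').trans Subgroup.topEquiv.symm, ⟨a', ha', ?_⟩, ?_⟩
    · intro u
      rfl
    · intro v
      rfl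

theorem svq (hSRQ : SrqStmt) (hRSQ : RsqStmt) : SvqStmt := by
  intro L ℓ hL V V' _ _ E E' π hQ P W U h hker hne
  have hWP : W ≤ P := sr_le h.wp
  have hUk : U ⊓ π.ker = ⊥ := by
    rw [eq_bot_iff, ← h.pu, hker]
    exact fun x hx => ⟨hWP hx.2, hx.1⟩
  have hkW : π.ker ≤ W := hker.le
  have hWm : W.map π = ⊥ := (Subgroup.map_eq_bot_iff W).2 hker.ge
  obtain ⟨τ, -, hτ⟩ := hRSQ V V' E E' π hQ U h.su hUk
  have htm : L ℓ (U.map π) (rse E' (U.map π)) :=
    hL.iso U (U.map π) (rse E U) (rse E' (U.map π)) τ hτ h.tm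
  have hinj : ∀ u ∈ U, π u = 1 → u = 1 := by
    intro u hu h1
    have h2 : u ∈ U ⊓ π.ker := ⟨hu, h1⟩
    rw [hUk] at h2
    exact Subgroup.mem_bot.1 h2
  rcases Relation.ReflTransGen.cases_head h.wp with hPW | ⟨Q, hWQ, hQP⟩
  · refine ⟨⊤, Or.inl ⟨rfl, ?_, ?_⟩⟩
    · intro h1
      obtain ⟨v, hv⟩ := hne
      have h2 : v ∈ (⊤ : Subgroup V') := Subgroup.mem_top v
      rw [h1] at h2
      exact hv (Subgroup.mem_bot.1 h2)
    · apply top_iso hL E' (U.map π) _ htm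
      have h1 : (P ⊔ U).map π = ⊤ := by
        rw [h.jn]
        exact Subgroup.map_top_of_surjective π hQ.sur
      rw [Subgroup.map_sup, ← hPW, hWm, bot_sup_eq] at h1
      exact h1
  · obtain ⟨h1, h2⟩ := hSRQ ℓ V V' E E' π hQ U h.su hUk
    refine ⟨Q.map π, Or.inr ⟨P.map π, U.map π, ?_⟩⟩
    refine ⟨?_, ?_, ?_, h2 Q P (hkW.trans hWQ.le) hQP, ?_, ?_, ?_, ?_, htm⟩
    · intro a b
      obtain ⟨x, rfl⟩ := hQ.sur a
      obtain ⟨y, rfl⟩ := hQ.sur b
      rw [← map_mul, h.ab, map_mul]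
    · rintro a' ha' b' hb' v ⟨w, hw, rfl⟩
      obtain ⟨a, ha, h3⟩ := hQ.lif a' ha'
      obtain ⟨b, hb, h4⟩ := hQ.lif b' hb'
      rw [← h4, ← h3, ← h3, ← h4, h.cm a ha b hb w hw]
    · have h3 := h1 W Q hkW hWQ
      rw [hWm] at h3
      exact h3
    · rintro a' ha' v ⟨w, hw, rfl⟩
      obtain ⟨a, ha, h3⟩ := hQ.lif a' ha'
      exact ⟨a w, h.su a ha w hw, h3 w⟩
    · intro h3
      apply h.nt
      rw [eq_bot_iff]
      intro u hu
      have h4 : π u ∈ U.map π := ⟨u, hu, rfl⟩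
      rw [h3] at h4
      exact Subgroup.mem_bot.2 (hinj u hu (Subgroup.mem_bot.1 h4))
    · rw [eq_bot_iff]
      rintro x ⟨⟨p, hp, rfl⟩, ⟨u, hu, h3⟩⟩
      have h4 : p⁻¹ * u ∈ π.ker := by
        rw [MonoidHom.mem_ker, map_mul, map_inv, h3, inv_mul_cancel]
      rw [hker] at h4
      have h5 : u ∈ P := by
        have h6 := P.mul_mem hp (hWP h4)
        rwa [mul_inv_cancel_left] at h6
      have h6 : u ∈ P ⊓ U := ⟨h5, hu⟩
      rw [h.pu] at h6
      rw [Subgroup.mem_bot, ← h3, Subgroup.mem_bot.1 h6, map_one]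
    · rw [← Subgroup.map_sup, h.jn]
      exact Subgroup.map_top_of_surjective π hQ.sur

end Pool.Agent.PST.GU.H92
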