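import Pool.Agent.PST.StmtsET1

/-!
# Row EPS of squad PST, block ET: the augmentation and the functional of an additive function (helper92)
-/

set_option autoImplicit false

open scoped BigOperators

namespace Pool.Agent.PST.ET.H92

open Pool.Agent.PST.ET
open Pool.Agent.PFD.D2 (Cdv FibG)

section

variable {R F V S : Type} [CommRing R] [Field F] [CommGroup V] [Fintype V] [DecidableEq V]
  [CommRing S] [Algebra R S]

private theorem kpi (c : Cdv R F) : c.κ c.π = 0 := (c.ker c.π).2 ⟨1, (mul_one _).symm⟩

private theorem eps_add (c : Cdv R F) (cf : V → (S →ₗ[R] R)) (a b : S) :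
    eps c cf (a + b) = eps c cf a + eps c cf b := by
  unfold eps
  rw [← Finset.sum_add_distrib]
  exact Finset.sum_congr rfl fun v _ => by rw [map_add, map_add]

private theorem eps_smul (c : Cdv R F) (cf : V → (S →ₗ[R] R)) (r : R) (a : S) :
    eps c cf (r • a) = c.κ r * eps c cf a := by
  unfold eps
  rw [Finset.mul_sum]
  exact Finset.sum_congr rfl fun v _ => by rw [map_smul, smul_eq_mul, map_mul]

private theorem dl_add (c : Cdv R F) (cf : V → (S →ₗ[R] R)) (m : V → F) (a b : S) :
    dl c cf m (a + b) = dl c cf m a + dl c cf m b := by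
  unfold dl
  rw [← Finset.sum_add_distrib]
  exact Finset.sum_congr rfl fun v _ => by rw [map_add, map_add, add_mul]

private theorem dl_smul (c : Cdv R F) (cf : V → (S →ₗ[R] R)) (m : V → F) (r : R) (a : S) :
    dl c cf m (r • a) = c.κ r * dl c cf m a := by
  unfold dl
  rw [Finset.mul_sum]
  exact Finset.sum_congr rfl fun v _ => by rw [map_smul, smul_eq_mul, map_mul, mul_assoc]

private theorem eps_sum (c : Cdv R F) (cf : V → (S →ₗ[R] R)) {ι : Type} (s : Finset ι)
    (f : ι → S) : eps c cf (∑ i ∈ s, f i) = ∑ i ∈ s, eps c cf (f i) := by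
  classical
  induction s using Finset.induction_on with
  | empty =>
    simp only [Finset.sum_empty]
    have h := eps_smul c cf 0 (0 : S)
    rw [zero_smul, map_zero, zero_mul] at h
    exact h
  | insert i s hi ih => rw [Finset.sum_insert hi, Finset.sum_insert hi, eps_add, ih]

private theorem dl_sum (c : Cdv R F) (cf : V → (S →ₗ[R] R)) (m : V → F) {ι : Type} (s : Finset ι)
    (f : ι → S) : dl c cf m (∑ i ∈ s, f i) = ∑ i ∈ s, dl c cf m (f i) := by
  classical
  induction s using Finset.induction_on with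
  | empty =>
    simp only [Finset.sum_empty]
    have h := dl_smul c cf m 0 (0 : S)
    rw [zero_smul, map_zero, zero_mul] at h
    exact h
  | insert i s hi ih => rw [Finset.sum_insert hi, Finset.sum_insert hi, dl_add, ih]

private theorem eps_sig {c : Cdv R F} {σ : V → S} {cf : V → (S →ₗ[R] R)} (h : SVd c σ cf)
    (v : V) : eps c cf (σ v) = 1 := by
  unfold eps
  rw [Finset.sum_eq_single v]
  · rw [h.b2, if_pos rfl, map_one]
  · intro u _ hu
    rw [h.b2, if_neg hu, map_zero]
  · intro hv
    exact absurd (Finset.mem_univ v) hv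

private theorem dl_sig {c : Cdv R F} {σ : V → S} {cf : V → (S →ₗ[R] R)} (h : SVd c σ cf)
    (m : V → F) (v : V) : dl c cf m (σ v) = m v := by
  unfold dl
  rw [Finset.sum_eq_single v]
  · rw [h.b2, if_pos rfl, map_one, one_mul]
  · intro u _ hu
    rw [h.b2, if_neg hu, map_zero, zero_mul]
  · intro hv
    exact absurd (Finset.mem_univ v) hv

end

theorem eps : EpsStmt := by
  intro R F V S _ _ _ _ _ _ _ c σ cf m h hm
  have hmul : ∀ u v, ET.eps c cf (σ u * σ v) = 1 := by
    intro u v
    obtain ⟨d, hd⟩ := h.mul u v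
    rw [hd, eps_add, eps_smul, kpi, zero_mul, add_zero, eps_sig h]
  have hdl : ∀ u v, dl c cf m (σ u * σ v) = m u + m v := by
    intro u v
    obtain ⟨d, hd⟩ := h.mul u v
    rw [hd, dl_add, dl_smul, kpi, zero_mul, add_zero, dl_sig h, hm]
  have hprod : ∀ a b : S, a * b = ∑ u, ∑ v, (cf u a * cf v b) • (σ u * σ v) := by
    intro a b
    calc a * b = (∑ u, cf u a • σ u) * ∑ v, cf v b • σ v := by rw [h.b1, h.b1]
      _ = _ := by
        rw [Finset.sum_mul_sum]
        exact Finset.sum_congr rfl fun u _ => Finset.sum_congr rfl fun v _ =>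
          smul_mul_smul_comm _ _ _ _
  refine ⟨?_, eps_add c cf, ?_, eps_smul c cf, dl_add c cf m, ?_, dl_smul c cf m, eps_sig h,
    dl_sig h m⟩
  · rw [← h.one]
    exact eps_sig h 1
  · intro a b
    rw [hprod a b, eps_sum]
    have h1 : ∀ u, ET.eps c cf (∑ v, (cf u a * cf v b) • (σ u * σ v)) =
        c.κ (cf u a) * ∑ v, c.κ (cf v b) := by
      intro u
      rw [eps_sum, Finset.mul_sum]
      exact Finset.sum_congr rfl fun v _ => by rw [eps_smul, hmul, mul_one, map_mul]
    rw [Finset.sum_congr rfl fun u _ => h1 u, ← Finset.sum_mul]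
    rfl
  · intro a b
    rw [hprod a b, dl_sum]
    have h1 : ∀ u, dl c cf m (∑ v, (cf u a * cf v b) • (σ u * σ v)) =
        (c.κ (cf u a) * m u) * (∑ v, c.κ (cf v b)) + c.κ (cf u a) * ∑ v, c.κ (cf v b) * m v := by
      intro u
      rw [dl_sum, Finset.mul_sum, Finset.mul_sum, ← Finset.sum_add_distrib]
      exact Finset.sum_congr rfl fun v _ => by
        rw [dl_smul, hdl, map_mul]
        ring
    rw [Finset.sum_congr rfl fun u _ => h1 u, Finset.sum_add_distrib, ← Finset.sum_mul,
      ← Finset.sum_mul, add_comm]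
    rfl

end Pool.Agent.PST.ET.H92
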